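import Mathlib

/-!
The logistic equation with piecewise constant argument has bounded solutions with positive
initial value, for every `μ` in `(0,1)` and for every initial value.
-/

namespace Pool.Agent.Results.MP_1375b8_an.EventuallyZero

/-- `y` is the solution of the recursion with parameter `μ` and initial value `y0`. -/
def IsSol (μ y0 : ℝ) (y : ℕ → ℝ) : Prop :=
  y 0 = y0 ∧ (∀ n : ℕ, y (2 * n + 1) = y (2 * n) + μ * (1 - Real.exp (y n))) ∧
    (∀ n : ℕ, 1 ≤ n → y (2 * n) = y (2 * n - 1) + μ * (1 - Real.exp (y n)))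

/-- The explicit sequence `(y0, 0, 0, …)`. -/
noncomputable def seq (y0 : ℝ) : ℕ → ℝ := fun n => if n = 0 then y0 else 0

lemma seq_isSol {μ y0 : ℝ} (h : y0 = μ * (Real.exp y0 - 1)) : IsSol μ y0 (seq y0) := by
  refine ⟨by simp [seq], fun n => ?_, fun n hn => ?_⟩
  · rcases Nat.eq_zero_or_pos n with rfl | hn
    · simp only [seq, mul_zero, zero_add, if_true, one_ne_zero, if_false]
      linarith
    · have h1 : 2 * n + 1 ≠ 0 := by omega
      have h2 : 2 * n ≠ 0 := by omega
      have h3 : n ≠ 0 := by omega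
      simp [seq, h1, h2, h3]
  · have h1 : 2 * n - 1 ≠ 0 := by omega
    have h2 : 2 * n ≠ 0 := by omega
    have h3 : n ≠ 0 := by omega
    simp [seq, h1, h2, h3]

lemma isSol_unique {μ y0 : ℝ} (h : y0 = μ * (Real.exp y0 - 1)) {y : ℕ → ℝ}
    (hy : IsSol μ y0 y) : ∀ n, 1 ≤ n → y n = 0 := by
  obtain ⟨h0, h1, h2⟩ := hy
  intro n
  induction n using Nat.strong_induction_on with
  | _ n ih =>
    intro hn
    rcases Nat.even_or_odd' n with ⟨m, rfl | rfl⟩
    · have hm : 1 ≤ m := by omega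
      rw [h2 m hm, ih m (by omega) hm, ih (2 * m - 1) (by omega) (by omega)]
      simp
    · rcases Nat.eq_zero_or_pos m with rfl | hm
      · have := h1 0
        simp only [mul_zero, zero_add, h0] at this ⊢
        rw [this]
        linarith
      · rw [h1 m, ih m (by omega) hm, ih (2 * m) (by omega) (by omega)]
        simp

/-- For every `y0 > 0` there is `μ ∈ (0,1)`, and for every `μ ∈ (0,1)` there is `y0 > 0`, such
that the solution is `(y0, 0, 0, …)`; in particular it is bounded. -/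
theorem result :
    (∀ y0 : ℝ, 0 < y0 → ∃ μ : ℝ, 0 < μ ∧ μ < 1 ∧ (∃ y, IsSol μ y0 y) ∧
      ∀ y, IsSol μ y0 y → (∀ n, 1 ≤ n → y n = 0) ∧ ∃ C : ℝ, ∀ n, |y n| ≤ C) ∧
    (∀ μ : ℝ, 0 < μ → μ < 1 → ∃ y0 : ℝ, 0 < y0 ∧ (∃ y, IsSol μ y0 y) ∧
      ∀ y, IsSol μ y0 y → (∀ n, 1 ≤ n → y n = 0) ∧ ∃ C : ℝ, ∀ n, |y n| ≤ C) := by
  have key : ∀ μ y0 : ℝ, y0 = μ * (Real.exp y0 - 1) → (∃ y, IsSol μ y0 y) ∧
      ∀ y, IsSol μ y0 y → (∀ n, 1 ≤ n → y n = 0) ∧ ∃ C : ℝ, ∀ n, |y n| ≤ C := by
    intro μ y0 h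
    refine ⟨⟨_, seq_isSol h⟩, fun y hy => ⟨isSol_unique h hy, |y0|, fun n => ?_⟩⟩
    rcases Nat.eq_zero_or_pos n with rfl | hn
    · rw [hy.1]
    · rw [isSol_unique h hy n hn, abs_zero]
      exact abs_nonneg _
  constructor
  · intro y0 hy0
    have hexp : y0 + 1 < Real.exp y0 := Real.add_one_lt_exp hy0.ne'
    have hpos : 0 < Real.exp y0 - 1 := by linarith
    refine ⟨y0 / (Real.exp y0 - 1), by positivity, ?_, key _ _ ?_⟩
    · rw [div_lt_one hpos]
      linarith
    · rw [div_mul_cancel₀ _ hpos.ne']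
  · intro μ hμ hμ1
    set g : ℝ → ℝ := fun y => y - μ * (Real.exp y - 1) with hg
    have hcont : Continuous g := by
      rw [hg]
      fun_prop
    set a : ℝ := (1 - μ) / 2 with ha
    set b : ℝ := 2 / μ with hb
    have ha0 : 0 < a := by rw [ha]; linarith
    have ha1 : a < 1 := by rw [ha]; linarith
    have hb0 : 0 < b := by rw [hb]; positivity
    have hb1 : 1 < b := by
      rw [hb, lt_div_iff₀ hμ]
      linarith
    have hab : a ≤ b := by linarith
    have hga : 0 ≤ g a := by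
      have h1 : Real.exp a ≤ 1 / (1 - a) := Real.exp_bound_div_one_sub_of_interval ha0.le ha1
      have h2 : 0 < 1 - a := by linarith
      have h3 : 1 / (1 - a) - 1 = a / (1 - a) := by
        field_simp
        ring
      have h4 : μ * (Real.exp a - 1) ≤ μ * (a / (1 - a)) := by
        apply mul_le_mul_of_nonneg_left _ hμ.le
        linarith
      have h5 : μ * (a / (1 - a)) ≤ a := by
        rw [← mul_div_assoc, div_le_iff₀ h2]
        nlinarith
      simp only [hg]
      linarith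
    have hgb : g b ≤ 0 := by
      have h1 : 1 + b + b ^ 2 / 2 ≤ Real.exp b := Real.quadratic_le_exp_of_nonneg hb0.le
      have h2 : μ * b = 2 := by
        rw [hb]
        field_simp
      have h3 : μ * (b + b ^ 2 / 2) ≤ μ * (Real.exp b - 1) := by
        apply mul_le_mul_of_nonneg_left _ hμ.le
        linarith
      have h4 : μ * (b + b ^ 2 / 2) = 2 + b := by
        have : μ * (b + b ^ 2 / 2) = μ * b + (μ * b) * b / 2 := by ring
        rw [this, h2]
        ring
      simp only [hg]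
      linarith
    obtain ⟨c, hc, hgc⟩ := intermediate_value_Icc' hab hcont.continuousOn
      (show (0 : ℝ) ∈ Set.Icc (g b) (g a) from ⟨hgb, hga⟩)
    refine ⟨c, by linarith [hc.1], key _ _ ?_⟩
    simp only [hg] at hgc
    linarith

end Pool.Agent.Results.MP_1375b8_an.EventuallyZero
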